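import Pool.Agent.R326.PC.Lower
import Pool.Agent.R326.PC.Upper

set_option autoImplicit false

/-!
# Every positive integer is the polychromatic number of a subgraph of a hypercube

For `r ≥ 1` let `G_r` be the spanning subgraph of `Q_r` in which `x` and `x + e_i` are adjacent
when `x` has no ones to the right of `i`, or all coordinates of `x` to the left of `i` are
ones.  Copies of `G_r` in hypercubes are rigid, so that the colouring of the edges by their level
modulo `r` is polychromatic.  In the other direction Ramsey's theorem reduces an arbitrary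
colouring with more than `r` colours to a colouring by the numbers of ones to the left and to the
right of the direction of the edge, and a greedy choice gives a copy of `G_r` missing a colour.
-/

namespace Pool.Agent.Results.MP_61c2aa_co.AllPolychromaticNumbers

/-- The hypercube `Q_n`: the vertices are the `0`-`1` vectors of length `n`, and two of them are
adjacent if and only if they differ in exactly one coordinate. -/
def Cube (n : ℕ) : SimpleGraph (Fin n → Bool) where
  Adj x y := ∃ i, ∀ j, x j ≠ y j ↔ j = i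
  symm := ⟨by
    rintro x y ⟨i, hi⟩
    exact ⟨i, fun j => by rw [ne_comm]; exact hi j⟩⟩
  loopless := ⟨by
    rintro x ⟨i, hi⟩
    exact (hi i).2 rfl rfl⟩

/-- `χ` is a `G`-polychromatic colouring of `Q_n` with `r` colours: every copy of `G` in `Q_n`
(every subgraph `H` of `Q_n` isomorphic to `G`) contains, for every colour, an edge of that
colour. -/
def IsPolychromatic {V : Type} (G : SimpleGraph V) {n r : ℕ}
    (χ : (Cube n).edgeSet → Fin r) : Prop :=
  ∀ H : (Cube n).Subgraph, Nonempty (G ≃g H.coe) →
    ∀ c : Fin r, ∃ e : (Cube n).edgeSet, e.val ∈ H.edgeSet ∧ χ e = c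

/-- `p` is the polychromatic number of `G`: the largest `r ≥ 1` such that for every `n ≥ 1` there
is a `G`-polychromatic colouring of `Q_n` with `r` colours. -/
def IsPolychromaticNumber {V : Type} (G : SimpleGraph V) (p : ℕ) : Prop :=
  IsGreatest {r : ℕ | 1 ≤ r ∧
    ∀ n : ℕ, 1 ≤ n → ∃ χ : (Cube n).edgeSet → Fin r, IsPolychromatic G χ} p

open Pool.Agent.R326.PC

lemma gg_le (d : ℕ) : GG d ≤ Cube d := by
  rintro x y ⟨i, hi, _⟩
  exact ⟨i, hi⟩

lemma gg_edge {d : ℕ} (hd : 0 < d) : ∃ u v, (GG d).Adj u v := by
  refine ⟨fun _ => false, fl (fun _ => false) ⟨0, hd⟩, ⟨0, hd⟩, diffAt_fl _ _, ?_⟩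
  left
  intro j _
  rfl

lemma gg_reach {d : ℕ} : ∀ N : ℕ, ∀ x : Fin d → Bool,
    (Finset.univ.filter (fun j => x j = true)).card = N →
      (GG d).Reachable x (fun _ => false) := by
  intro N
  induction N with
  | zero =>
    intro x hx
    rw [Finset.card_eq_zero, Finset.filter_eq_empty_iff] at hx
    have : x = fun _ => false := by
      funext j
      have := hx (Finset.mem_univ j)
      simpa using this
    rw [this]
  | succ N ih =>
    intro x hx
    have hne : (Finset.univ.filter (fun j => x j = true)).Nonempty := by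
      rw [← Finset.card_pos]; omega
    obtain ⟨m, hm⟩ : ∃ m, m = (Finset.univ.filter (fun j => x j = true)).max' hne := ⟨_, rfl⟩
    have hmm := Finset.max'_mem _ hne
    rw [← hm] at hmm
    simp only [Finset.mem_filter, Finset.mem_univ, true_and] at hmm
    have hmax : ∀ j, m < j → x j = false := by
      intro j hj
      by_contra hc
      have hc' : x j = true := by simpa using hc
      have := Finset.le_max' (Finset.univ.filter (fun j => x j = true)) j (by simp [hc'])
      rw [← hm] at this
      exact absurd hj (not_lt.2 this)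
    have hcard : (Finset.univ.filter (fun j => (fl x m) j = true)).card = N := by
      have : (Finset.univ.filter (fun j => (fl x m) j = true)) =
          (Finset.univ.filter (fun j => x j = true)).erase m := by
        ext j
        simp only [Finset.mem_filter, Finset.mem_univ, true_and, Finset.mem_erase]
        by_cases hj : j = m
        · subst hj; rw [fl_same, hmm]; simp
        · rw [fl_ne _ hj]; simp [hj]
      rw [this, Finset.card_erase_of_mem (by simp [hmm]), hx]; rfl
    have h1 : (GG d).Adj x (fl x m) := ⟨m, diffAt_fl x m, Or.inl hmax⟩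
    exact h1.reachable.trans (ih _ hcard)

lemma gg_connected (d : ℕ) : (GG d).Connected := by
  rw [SimpleGraph.connected_iff]
  refine ⟨fun x y => ?_, ⟨fun _ => false⟩⟩
  exact (gg_reach _ x rfl).trans (gg_reach _ y rfl).symm

/-- the colouring by levels -/
def levCol (n : ℕ) {r : ℕ} (hr : 0 < r) (e : (Cube n).edgeSet) : Fin r :=
  ⟨Sym2.lift ⟨fun a b => lev a b, fun a b => lev_comm a b⟩ e.val % r, Nat.mod_lt _ hr⟩

lemma levCol_poly (n : ℕ) {r : ℕ} (hr : 0 < r) : IsPolychromatic (GG r) (levCol n hr) := by
  rintro H ⟨φ⟩ c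
  have hadjH : ∀ x y, (GG r).Adj x y → H.Adj (φ x).val (φ y).val := by
    intro x y h
    have h1 : H.coe.Adj (φ x) (φ y) := φ.map_rel_iff.2 h
    exact h1
  have hadj : ∀ x y, (GG r).Adj x y → (Q n).Adj (φ x).val (φ y).val :=
    fun x y h => (hadjH x y h).adj_sub
  have hinj : Function.Injective (fun x : Fin r → Bool => (φ x).val) := by
    intro x y h
    exact φ.injective (Subtype.ext h)
  obtain ⟨u, v, huv, hl⟩ := lower hr (fun x => (φ x).val) hinj hadj c
  refine ⟨⟨s((φ u).val, (φ v).val), (Cube n).mem_edgeSet.2 (hadj u v huv)⟩, ?_, ?_⟩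
  · exact SimpleGraph.Subgraph.mem_edgeSet.2 (hadjH u v huv)
  · apply Fin.ext
    exact hl

/-- the image of a graph under an injective homomorphism -/
def imageGraph {n d : ℕ} (f : GG d →g Q n) : (Cube n).Subgraph where
  verts := Set.range f
  Adj a b := ∃ x y, (GG d).Adj x y ∧ f x = a ∧ f y = b
  adj_sub := by
    rintro a b ⟨x, y, h, rfl, rfl⟩
    exact f.map_adj h
  edge_vert := by
    rintro a b ⟨x, y, h, rfl, rfl⟩
    exact ⟨x, rfl⟩
  symm := ⟨by
    rintro a b ⟨x, y, h, rfl, rfl⟩
    exact ⟨y, x, h.symm, rfl, rfl⟩⟩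

lemma imageIso {n d : ℕ} (f : GG d →g Q n) (hf : Function.Injective f) :
    Nonempty (GG d ≃g (imageGraph f).coe) := by
  refine ⟨⟨Equiv.ofInjective f hf, ?_⟩⟩
  intro a b
  constructor
  · rintro ⟨x, y, h, hx, hy⟩
    have h1 : x = a := hf hx
    have h2 : y = b := hf hy
    rw [← h1, ← h2]
    exact h
  · intro h
    exact ⟨a, b, h, rfl, rfl⟩

/-- **Every integer `r ≥ 1` is the polychromatic number of some subgraph of a hypercube**, in fact
of a connected spanning subgraph of `Q_r`. -/
theorem result (r : ℕ) (hr : 1 ≤ r) :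
    ∃ G : SimpleGraph (Fin r → Bool), G ≤ Cube r ∧ G.Connected ∧ (∃ u v, G.Adj u v) ∧
      IsPolychromaticNumber G r := by
  refine ⟨GG r, gg_le r, gg_connected r, gg_edge hr, ⟨hr, fun n _ => ⟨levCol n hr,
    levCol_poly n hr⟩⟩, ?_⟩
  rintro s ⟨_, hs⟩
  by_contra hlt
  obtain ⟨n, hn, hup⟩ := upper (d := r) (s := s) hr (by omega)
  obtain ⟨χ, hχ⟩ := hs n hn
  obtain ⟨f, hf, c, hc⟩ := hup χ
  obtain ⟨⟨e, he⟩, heH, hec⟩ := hχ (imageGraph f) (imageIso f hf) c
  induction e using Sym2.ind with
  | _ a b =>
    obtain ⟨x, y, h, rfl, rfl⟩ := SimpleGraph.Subgraph.mem_edgeSet.1 heH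
    exact hc x y h hec

end Pool.Agent.Results.MP_61c2aa_co.AllPolychromaticNumbers
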